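import Pool.Agent.H24.CL.TargetsK

/-!
# The game (all k): row GA (helper31)
-/

set_option autoImplicit false

open Finset

namespace Pool.Agent.H31.CLK

open Pool.Agent.H24.CL

/-- the charge of a level at distance `l` on the level `i` -/
noncomputable def chg (k : ℕ) (g p : ℕ → ℝ) (R : ℕ → ℕ) (l i : ℕ) : ℝ :=
  ((k : ℝ) - l) * min 1 (g i) + ((k - max 1 (R i) - l : ℕ) : ℝ) * p i

/-- the potential -/
noncomputable def PHI (k : ℕ) (g p : ℕ → ℝ) (R : ℕ → ℕ) (j : ℕ) : ℝ :=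
  ∑ s ∈ range (k - 1), ∑ l ∈ Ico (s + 1) k, chg k g p R l (j + s)

theorem KN_real (k : ℕ) : (KN k : ℝ) = (k : ℝ) * ((k : ℝ) + 1) / 2 := by
  have h2 : 2 * KN k = k * (k + 1) := by
    unfold KN
    exact Nat.mul_div_cancel' (Nat.even_mul_succ_self k).two_dvd
  have h3 : (2 : ℝ) * (KN k : ℝ) = (k : ℝ) * ((k : ℝ) + 1) := by exact_mod_cast h2
  linarith

theorem phi_tele (k : ℕ) (hk : 1 ≤ k) (g p : ℕ → ℝ) (R : ℕ → ℕ) (j : ℕ) :
    PHI k g p R j - PHI k g p R (j + 1) =
      (∑ l ∈ Ico 1 k, chg k g p R l j) - ∑ l ∈ Ico 1 k, chg k g p R l (j + l) := by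
  obtain ⟨n, rfl⟩ : ∃ n, k = n + 1 := ⟨k - 1, by omega⟩
  set F : ℕ → ℕ → ℝ := fun s i => ∑ l ∈ Ico (s + 1) (n + 1), chg (n + 1) g p R l i with hF
  have h1 : PHI (n + 1) g p R j = ∑ s ∈ range n, F s (j + s) := rfl
  have h2 : PHI (n + 1) g p R (j + 1) = ∑ s ∈ range n, F s (j + 1 + s) := rfl
  have h3 : ∀ s ∈ range n, F s (j + 1 + s) = chg (n + 1) g p R (s + 1) (j + (s + 1)) +
      F (s + 1) (j + (s + 1)) := by
    intro s hs
    have hs' : s < n := mem_range.mp hs
    have e1 : j + 1 + s = j + (s + 1) := by ring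
    rw [e1]
    simp only [hF]
    rw [Finset.sum_eq_sum_Ico_succ_bot (by omega : s + 1 < n + 1)]
  have h4 : ∑ s ∈ range n, F (s + 1) (j + (s + 1)) =
      (∑ s ∈ range n, F s (j + s)) - F 0 j := by
    have e1 := Finset.sum_range_succ' (fun s => F s (j + s)) n
    have e2 := Finset.sum_range_succ (fun s => F s (j + s)) n
    have e3 : F n (j + n) = 0 := by
      simp only [hF]
      rw [Finset.Ico_self, Finset.sum_empty]
    simp only [add_zero] at e1
    rw [e3, add_zero] at e2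
    linarith
  have h5 : ∑ l ∈ Ico 1 (n + 1), chg (n + 1) g p R l (j + l) =
      ∑ s ∈ range n, chg (n + 1) g p R (s + 1) (j + (s + 1)) := by
    rw [Finset.sum_Ico_eq_sum_range]
    simp only [Nat.add_sub_cancel]
    apply Finset.sum_congr rfl
    intro s _
    rw [add_comm 1 s]
  rw [h1, h2, Finset.sum_congr rfl h3, Finset.sum_add_distrib, h4, h5]
  simp only [hF]
  rw [zero_add]
  ring

theorem chg_nonneg {k : ℕ} {g p : ℕ → ℝ} {R : ℕ → ℕ} (hg : ∀ j, 0 ≤ g j) (hp : ∀ j, 0 ≤ p j)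
    {l : ℕ} (hl : l ≤ k) (i : ℕ) : 0 ≤ chg k g p R l i := by
  unfold chg
  have : (l : ℝ) ≤ k := by exact_mod_cast hl
  have h1 : 0 ≤ ((k : ℝ) - l) * min 1 (g i) :=
    mul_nonneg (by linarith) (le_min zero_le_one (hg i))
  have h2 : 0 ≤ ((k - max 1 (R i) - l : ℕ) : ℝ) * p i := mul_nonneg (Nat.cast_nonneg _) (hp i)
  linarith

theorem sum_lin (k : ℕ) (hk : 1 ≤ k) :
    ∑ l ∈ Ico 1 k, ((k : ℝ) - l) = (k : ℝ) * ((k : ℝ) - 1) / 2 := by
  induction k with
  | zero => omega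
  | succ n ih =>
    rcases Nat.eq_zero_or_pos n with rfl | hn
    · simp
    · have ih' := ih hn
      have e1 : ∑ l ∈ Ico 1 (n + 1), (((n + 1 : ℕ) : ℝ) - l) =
          (∑ l ∈ Ico 1 n, ((n : ℝ) - l)) + (∑ l ∈ Ico 1 n, (1 : ℝ)) + 1 := by
        rw [Finset.sum_Ico_succ_top hn, ← Finset.sum_add_distrib]
        have e2 : ((n + 1 : ℕ) : ℝ) - (n : ℝ) = 1 := by push_cast; ring
        rw [e2]
        congr 1
        apply Finset.sum_congr rfl
        intro l _
        push_cast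
        ring
      rw [e1, ih']
      simp only [Finset.sum_const, Nat.card_Ico, nsmul_eq_mul, mul_one]
      rw [Nat.cast_sub hn]
      push_cast
      ring

theorem sum_lab (k R : ℕ) (h1 : 1 ≤ R) (h2 : R ≤ k) :
    ∑ l ∈ Ico 1 k, ((k - R - l : ℕ) : ℝ) = ((k : ℝ) - R) * ((k : ℝ) - R - 1) / 2 := by
  rcases Nat.lt_or_ge R k with h | h
  · -- R < k
    have e1 : ∑ l ∈ Ico 1 k, ((k - R - l : ℕ) : ℝ) =
        ∑ l ∈ Ico 1 (k - R), ((k - R - l : ℕ) : ℝ) := by
      symm
      apply Finset.sum_subset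
      · intro x hx
        simp only [Finset.mem_Ico] at hx ⊢
        omega
      · intro x hx hx'
        simp only [Finset.mem_Ico] at hx hx'
        have : k - R - x = 0 := by omega
        rw [this]
        simp
    have e2 : ∑ l ∈ Ico 1 (k - R), ((k - R - l : ℕ) : ℝ) =
        ∑ l ∈ Ico 1 (k - R), (((k - R : ℕ) : ℝ) - l) := by
      apply Finset.sum_congr rfl
      intro x hx
      simp only [Finset.mem_Ico] at hx
      rw [Nat.cast_sub (by omega : x ≤ k - R)]
    rw [e1, e2, sum_lin (k - R) (by omega), Nat.cast_sub h.le]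
  · have hR : R = k := le_antisymm h2 h
    subst hR
    have : ∀ l ∈ Ico 1 R, ((R - R - l : ℕ) : ℝ) = 0 := by
      intro l _
      have : R - R - l = 0 := by omega
      rw [this]
      simp
    rw [Finset.sum_congr rfl this]
    simp

theorem own_sum (k : ℕ) (hk : 1 ≤ k) (g p : ℕ → ℝ) (R : ℕ → ℕ) (j : ℕ) (h2 : R j ≤ k) :
    ∑ l ∈ Ico 1 k, chg k g p R l j = ((KN k : ℝ) - k) * min 1 (g j) +
      ((k : ℝ) - (max 1 (R j) : ℕ)) * ((k : ℝ) - (max 1 (R j) : ℕ) - 1) / 2 * p j := by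
  unfold chg
  rw [Finset.sum_add_distrib, ← Finset.sum_mul, ← Finset.sum_mul, sum_lin k hk,
    sum_lab k (max 1 (R j)) (le_max_left _ _) (max_le hk h2), KN_real]
  ring

/-- the first part of the charges of the level `j` -/
noncomputable def gS (k : ℕ) (g : ℕ → ℝ) (r j : ℕ) : ℝ :=
  ∑ l ∈ Ico r k, ((k : ℝ) - l) * min 1 (g (j + l))

theorem gcK_eq (k : ℕ) (hk : 1 ≤ k) (g : ℕ → ℝ) (j r : ℕ) : gcK k g j r = gS k g r j := by
  unfold gcK gS
  have hI : Icc r (k - 1) = Ico r k := by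
    ext l
    rw [Finset.mem_Icc, Finset.mem_Ico]
    omega
  rw [hI]
  apply Finset.sum_congr rfl
  intro l hl
  rw [Finset.mem_Ico] at hl
  rw [Nat.cast_sub hl.2.le]

theorem gs_le (k : ℕ) (g : ℕ → ℝ) (hg : ∀ j, 0 ≤ g j) (r j : ℕ) (hr : 1 ≤ r) :
    gS k g r j ≤ gS k g 1 j := by
  unfold gS
  apply Finset.sum_le_sum_of_subset_of_nonneg
  · intro x hx
    simp only [Finset.mem_Ico] at hx ⊢
    omega
  · intro l hl _
    simp only [Finset.mem_Ico] at hl
    have : (l : ℝ) ≤ k := by exact_mod_cast hl.2.le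
    exact mul_nonneg (by linarith) (le_min zero_le_one (hg _))

theorem ps_le (k : ℕ) (p : ℕ → ℝ) (R : ℕ → ℕ) (hp : ∀ j, 0 ≤ p j) (r j : ℕ) :
    pcK k R p j r ≤ ∑ l ∈ Ico 1 k, ((k - max 1 (R (j + l)) - l : ℕ) : ℝ) * p (j + l) := by
  unfold pcK wt
  calc ∑ l ∈ Icc 1 (k - 2), ((min (k - r) (k - max 1 (R (j + l)) - l) : ℕ) : ℝ) * p (j + l)
      ≤ ∑ l ∈ Icc 1 (k - 2), ((k - max 1 (R (j + l)) - l : ℕ) : ℝ) * p (j + l) := by
        apply Finset.sum_le_sum
        intro l _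
        apply mul_le_mul_of_nonneg_right _ (hp _)
        exact_mod_cast min_le_right _ _
    _ ≤ ∑ l ∈ Ico 1 k, ((k - max 1 (R (j + l)) - l : ℕ) : ℝ) * p (j + l) := by
        apply Finset.sum_le_sum_of_subset_of_nonneg
        · intro x hx
          simp only [Finset.mem_Ico, Finset.mem_Icc] at hx ⊢
          omega
        · intro l _ _
          exact mul_nonneg (Nat.cast_nonneg _) (hp _)

theorem gs2_eq (k : ℕ) (hk : 3 ≤ k) (g : ℕ → ℝ) (j : ℕ) :
    gS k g 1 j = ((k : ℝ) - 1) * min 1 (g (j + 1)) + gS k g 2 j := by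
  unfold gS
  rw [Finset.sum_eq_sum_Ico_succ_bot (by omega : 1 < k)]
  push_cast
  ring

theorem gs3_eq (k : ℕ) (hk : 3 ≤ k) (g : ℕ → ℝ) (j : ℕ) :
    gS k g 1 j = ((k : ℝ) - 1) * min 1 (g (j + 1)) + ((k : ℝ) - 2) * min 1 (g (j + 2)) +
      gS k g 3 j := by
  rw [gs2_eq k hk]
  have : gS k g 2 j = ((k : ℝ) - 2) * min 1 (g (j + 2)) + gS k g 3 j := by
    unfold gS
    rw [Finset.sum_eq_sum_Ico_succ_bot (by omega : 2 < k)]
    push_cast
    ring
  rw [this]
  ring

/-- the sum of the charges of the level `j` -/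
theorem out_eq (k : ℕ) (g p : ℕ → ℝ) (R : ℕ → ℕ) (j : ℕ) :
    ∑ l ∈ Ico 1 k, chg k g p R l (j + l) = gS k g 1 j +
      ∑ l ∈ Ico 1 k, ((k - max 1 (R (j + l)) - l : ℕ) : ℝ) * p (j + l) := by
  unfold chg gS
  rw [Finset.sum_add_distrib]

theorem PHI_nonneg (k : ℕ) (g p : ℕ → ℝ) (R : ℕ → ℕ) (hg : ∀ j, 0 ≤ g j) (hp : ∀ j, 0 ≤ p j)
    (j : ℕ) : 0 ≤ PHI k g p R j := by
  unfold PHI
  apply Finset.sum_nonneg
  intro s _
  apply Finset.sum_nonneg
  intro l hl
  simp only [Finset.mem_Ico] at hl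
  exact chg_nonneg hg hp hl.2.le _

theorem PHI_zero_ge (k : ℕ) (g p : ℕ → ℝ) (R : ℕ → ℕ) (hg : ∀ j, 0 ≤ g j) (hp : ∀ j, 0 ≤ p j)
    (l : ℕ) (hl : l + 1 < k) : min 1 (g l) ≤ PHI k g p R 0 := by
  unfold PHI
  have h1 : ∑ l' ∈ Ico (l + 1) k, chg k g p R l' (0 + l) ≤
      ∑ s ∈ range (k - 1), ∑ l' ∈ Ico (s + 1) k, chg k g p R l' (0 + s) := by
    apply Finset.single_le_sum (f := fun s => ∑ l' ∈ Ico (s + 1) k, chg k g p R l' (0 + s))
    · intro s _
      apply Finset.sum_nonneg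
      intro l' hl'
      simp only [Finset.mem_Ico] at hl'
      exact chg_nonneg hg hp hl'.2.le _
    · rw [mem_range]; omega
  have h2 : chg k g p R (k - 1) (0 + l) ≤ ∑ l' ∈ Ico (l + 1) k, chg k g p R l' (0 + l) := by
    apply Finset.single_le_sum (f := fun l' => chg k g p R l' (0 + l))
    · intro l' hl'
      simp only [Finset.mem_Ico] at hl'
      exact chg_nonneg hg hp hl'.2.le _
    · rw [Finset.mem_Ico]; omega
  have h3 : min 1 (g l) ≤ chg k g p R (k - 1) (0 + l) := by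
    unfold chg
    rw [zero_add]
    have e1 : ((k - 1 : ℕ) : ℝ) = (k : ℝ) - 1 := by
      rw [Nat.cast_sub (by omega)]; simp
    rw [e1]
    have : 0 ≤ ((k - max 1 (R l) - (k - 1) : ℕ) : ℝ) * p l :=
      mul_nonneg (Nat.cast_nonneg _) (hp l)
    linarith
  linarith

theorem PHI_le (k : ℕ) (g p : ℕ → ℝ) (R : ℕ → ℕ) (hg : ∀ j, 0 ≤ g j) (hp : ∀ j, 0 ≤ p j)
    (j : ℕ) (M : ℝ) (hM : 0 ≤ M)
    (h : ∀ i, j ≤ i → i + 1 < j + k → min 1 (g i) ≤ M ∧ p i ≤ M) :
    PHI k g p R j ≤ 2 * (k : ℝ) ^ 3 * M := by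
  unfold PHI
  have hk0 : (0 : ℝ) ≤ k := Nat.cast_nonneg k
  have h1 : ∀ s ∈ range (k - 1), ∑ l ∈ Ico (s + 1) k, chg k g p R l (j + s) ≤
      (k : ℝ) * (2 * k * M) := by
    intro s hs
    have hs' : s < k - 1 := mem_range.mp hs
    obtain ⟨hgM, hpM⟩ := h (j + s) (by omega) (by omega)
    calc ∑ l ∈ Ico (s + 1) k, chg k g p R l (j + s)
        ≤ ∑ l ∈ Ico (s + 1) k, (2 * k * M) := by
          apply Finset.sum_le_sum
          intro l hl
          simp only [Finset.mem_Ico] at hl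
          unfold chg
          have hl0 : (0 : ℝ) ≤ l := Nat.cast_nonneg l
          have hlk : (l : ℝ) ≤ k := by exact_mod_cast hl.2.le
          have e1 : ((k : ℝ) - l) * min 1 (g (j + s)) ≤ k * M :=
            mul_le_mul (by linarith) hgM (le_min zero_le_one (hg _)) hk0
          have e2 : ((k - max 1 (R (j + s)) - l : ℕ) : ℝ) * p (j + s) ≤ k * M := by
            apply mul_le_mul _ hpM (hp _) hk0
            exact_mod_cast (by omega : k - max 1 (R (j + s)) - l ≤ k)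
          linarith
      _ = ((k - (s + 1) : ℕ) : ℝ) * (2 * k * M) := by
          rw [Finset.sum_const, Nat.card_Ico, nsmul_eq_mul]
      _ ≤ (k : ℝ) * (2 * k * M) := by
          apply mul_le_mul_of_nonneg_right _ (by positivity)
          exact_mod_cast Nat.sub_le _ _
  calc ∑ s ∈ range (k - 1), ∑ l ∈ Ico (s + 1) k, chg k g p R l (j + s)
      ≤ ∑ s ∈ range (k - 1), (k : ℝ) * (2 * k * M) := Finset.sum_le_sum h1
    _ = ((k - 1 : ℕ) : ℝ) * ((k : ℝ) * (2 * k * M)) := by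
        rw [Finset.sum_const, Finset.card_range, nsmul_eq_mul]
    _ ≤ (k : ℝ) * ((k : ℝ) * (2 * k * M)) := by
        apply mul_le_mul_of_nonneg_right _ (by positivity)
        exact_mod_cast Nat.sub_le _ _
    _ = 2 * (k : ℝ) ^ 3 * M := by ring

theorem kr_real (k r : ℕ) (hr : r ≤ k) : (kr k r : ℝ) =
    (KN k : ℝ) - ((k : ℝ) - r) * ((k : ℝ) - r + 1) / 2 := by
  have h1 : 2 * (r * (r - 1) / 2) = r * (r - 1) :=
    Nat.mul_div_cancel' (Nat.even_mul_pred_self r).two_dvd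
  have h2 : r * (r - 1) / 2 ≤ r * k := by
    have : r * (r - 1) ≤ r * k := Nat.mul_le_mul_left r (by omega)
    omega
  have h3 : (kr k r : ℝ) = (r : ℝ) * k - ((r * (r - 1) / 2 : ℕ) : ℝ) := by
    unfold kr
    rw [Nat.cast_sub h2]
    push_cast
    ring
  have h4 : (2 : ℝ) * ((r * (r - 1) / 2 : ℕ) : ℝ) = (r : ℝ) * ((r : ℝ) - 1) := by
    rcases Nat.eq_zero_or_pos r with rfl | hr0
    · simp
    · have : ((2 * (r * (r - 1) / 2) : ℕ) : ℝ) = ((r * (r - 1) : ℕ) : ℝ) := by rw [h1]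
      rw [Nat.cast_mul, Nat.cast_mul, Nat.cast_sub hr0] at this
      push_cast at this ⊢
      linarith
  rw [h3, KN_real]
  linarith

/-- Rewards of the four options. -/
theorem rewards (k : ℕ) (hk : 3 ≤ k) (g p : ℕ → ℝ) (R : ℕ → ℕ) (kap : ℝ)
    (hkap : 0 < kap) (hkap2 : kap ≤ 1 / (8 * ((KN k : ℝ) + 4)))
    (hg : ∀ j, 0 ≤ g j) (hp : ∀ j, 0 ≤ p j ∧ p j ≤ 1) (hR : ∀ j, R j ≤ k)
    (j : ℕ) (hfew : 1 ≤ R j → 1 - kap ≤ p j) (hpg : p j ≤ g j + kap) :
    (R j = 0 → OptK k R g p kap j (PHI k g p R j - PHI k g p R (j + 1) +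
      ((k : ℝ) - 1) * p j)) ∧
    (g (j + 1) + 2 * p j ≤ 1 - kap → OptK k R g p kap j
      (PHI k g p R j - PHI k g p R (j + 1) + ((k : ℝ) - 1) * min 1 (g (j + 1)))) ∧
    (g (j + 1) + 2 * p j ≤ 1 - kap → k * g (j + 1) + p j ≤ 1 - kap → OptK k R g p kap j
      (PHI k g p R j - PHI k g p R (j + 1) + (((k : ℝ) - 2) * min 1 (g (j + 2)) -
        ((k : ℝ) - 3)))) ∧
    (1 ≤ R j → OptK k R g p kap j (PHI k g p R j - PHI k g p R (j + 1) + 1 / 2)) := by
  have hp0 : ∀ j, 0 ≤ p j := fun j => (hp j).1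
  have hk3 : (3 : ℝ) ≤ k := by exact_mod_cast hk
  have hKN : (6 : ℝ) ≤ (KN k : ℝ) := by
    rw [KN_real]; nlinarith
  have hkap1 : kap ≤ 1 / 80 := by
    apply hkap2.trans
    rw [div_le_div_iff_of_pos_left (by norm_num) (by positivity) (by norm_num)]
    linarith
  have htele := phi_tele k (by omega) g p R j
  rw [own_sum k (by omega) g p R j (hR j), out_eq] at htele
  set T := ∑ l ∈ Ico 1 k, ((k - max 1 (R (j + l)) - l : ℕ) : ℝ) * p (j + l) with hT
  have hps : ∀ r, pcK k R p j r ≤ T := fun r => ps_le k p R hp0 r j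
  have hgh : min 1 (g j) ≤ g j := min_le_right _ _
  have hgh0 : 0 ≤ min 1 (g j) := le_min zero_le_one (hg j)
  have hKk : (k : ℝ) ≤ (KN k : ℝ) := by rw [KN_real]; nlinarith
  have hgg : ((KN k : ℝ) - k) * min 1 (g j) ≤ ((KN k : ℝ) - k) * g j :=
    mul_le_mul_of_nonneg_left hgh (by linarith)
  have hnf : g (j + 1) + 2 * p j ≤ 1 - kap → R j = 0 := by
    intro h
    by_contra hf
    have h1 := hfew (by omega)
    have h2 := hg (j + 1)
    linarith
  have hgc : ∀ r, gcK k g j r = gS k g r j := fun r => gcK_eq k (by omega) g j r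
  have hone : R j = 0 → ((max 1 (R j) : ℕ) : ℝ) = 1 := by
    intro h; rw [h]; simp
  refine ⟨?_, ?_, ?_, ?_⟩
  · intro hn
    left
    refine ⟨hn, ?_⟩
    rw [htele, hone hn, hgc]
    have h1 := hps 1
    have hK := KN_real k
    have e : (KN k : ℝ) * p j = (k : ℝ) * ((k : ℝ) + 1) / 2 * p j := by rw [hK]
    nlinarith
  · intro h
    right; left
    have hn := hnf h
    refine ⟨hn, h, ?_⟩
    rw [htele, hone hn, hgc, gs2_eq k hk]
    have h1 := hps 2
    have h2 := hp0 j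
    have hK := KN_real k
    have e : (KN k : ℝ) * p j = (k : ℝ) * ((k : ℝ) + 1) / 2 * p j := by rw [hK]
    have h3 : 0 ≤ (k : ℝ) * p j := mul_nonneg (by linarith) h2
    nlinarith
  · intro h h'
    right; right; left
    have hn := hnf h
    refine ⟨hn, h, h', ?_⟩
    rw [htele, hone hn, hgc, gs3_eq k hk]
    have h1 := hps 3
    have h2 := hp0 j
    have h3 := hg (j + 1)
    have h4 : g (j + 1) ≤ 1 := by nlinarith
    have hK := KN_real k
    have e : (KN k : ℝ) * p j = (k : ℝ) * ((k : ℝ) + 1) / 2 * p j := by rw [hK]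
    rw [min_eq_right h4]
    have h5 : 0 ≤ ((k : ℝ) - 2) * g (j + 1) := mul_nonneg (by linarith) h3
    have h6 : 0 ≤ (k : ℝ) * p j := mul_nonneg (by linarith) h2
    nlinarith
  · intro hf
    right; right; right
    refine ⟨hf, ?_⟩
    have h1 := hps (min (R j + 1) k)
    have h2 := gs_le k g hg (min (R j + 1) k) j (by omega)
    have h3 := hfew hf
    have h4 := (hp j).2
    have h5 : kap * (8 * ((KN k : ℝ) + 4)) ≤ 1 := by
      rw [le_div_iff₀ (by positivity)] at hkap2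
      exact hkap2
    rw [htele, hgc]
    have hRj := hR j
    have hmax : max 1 (R j) = R j := max_eq_right hf
    have hgj : 1 - 2 * kap ≤ g j := by linarith
    have hkK : kap * k ≤ kap * (KN k : ℝ) := mul_le_mul_of_nonneg_left hKk hkap.le
    have hA : ((KN k : ℝ)) * (1 - kap) ≤ (KN k : ℝ) * p j :=
      mul_le_mul_of_nonneg_left h3 (by linarith)
    have hB : (k : ℝ) * (1 - 2 * kap) ≤ (k : ℝ) * g j :=
      mul_le_mul_of_nonneg_left hgj (by linarith)
    have hR1 : (1 : ℝ) ≤ (R j : ℝ) := by exact_mod_cast hf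
    rw [hmax]
    have hkr := kr_real k (min (R j + 1) k) (min_le_right _ _)
    have hsub : ((k - min (R j + 1) k : ℕ) : ℝ) = (k : ℝ) - (min (R j + 1) k : ℕ) :=
      Nat.cast_sub (min_le_right _ _)
    rw [hkr, hsub]
    rcases Nat.lt_or_ge (R j) k with h | h
    · have e0 : min (R j + 1) k = R j + 1 := by omega
      rw [e0] at h1 h2 ⊢
      have e2 : (R j : ℝ) + 1 ≤ k := by exact_mod_cast h
      have hc : 0 ≤ ((k : ℝ) - R j) * ((k : ℝ) - R j - 1) / 2 := by
        apply div_nonneg _ (by norm_num)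
        exact mul_nonneg (by linarith) (by linarith)
      have hc2 := mul_nonneg hc (by linarith : 0 ≤ 1 - p j)
      push_cast
      nlinarith
    · have e1 : R j = k := by omega
      have e0 : min (R j + 1) k = k := by omega
      rw [e0] at h1 h2 ⊢
      rw [e1, sub_self]
      nlinarith

theorem opt_mono {k : ℕ} {R : ℕ → ℕ} {g p : ℕ → ℝ} {kap : ℝ} {j : ℕ} {x y : ℝ}
    (h : OptK k R g p kap j x) (hyx : y ≤ x) : OptK k R g p kap j y := by
  rcases h with ⟨h1, h2⟩ | ⟨h1, h2, h3⟩ | ⟨h1, h2, h3, h4⟩ | ⟨h1, h2⟩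
  · exact Or.inl ⟨h1, hyx.trans h2⟩
  · exact Or.inr (Or.inl ⟨h1, h2, hyx.trans h3⟩)
  · exact Or.inr (Or.inr (Or.inl ⟨h1, h2, h3, hyx.trans h4⟩))
  · exact Or.inr (Or.inr (Or.inr ⟨h1, hyx.trans h2⟩))

/-- the level `j` has an option with reward `c` -/
def RW (k : ℕ) (R : ℕ → ℕ) (g p : ℕ → ℝ) (kap c : ℝ) (j : ℕ) : Prop :=
  OptK k R g p kap j (PHI k g p R j - PHI k g p R (j + 1) + c)

theorem rw_mono {k : ℕ} {R : ℕ → ℕ} {g p : ℕ → ℝ} {kap c c' : ℝ} {j : ℕ}
    (h : RW k R g p kap c j) (hc : c' ≤ c) : RW k R g p kap c' j :=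
  opt_mono h (by linarith)

theorem collect (k : ℕ) (R : ℕ → ℕ) (g p : ℕ → ℝ) (kap c : ℝ) (n₁ : ℕ) (J : Finset ℕ)
    (hJ : J ⊆ range n₁) (h0 : ∀ j < n₁, RW k R g p kap 0 j) (h1 : ∀ j ∈ J, RW k R g p kap c j) :
    ∃ x : ℕ → ℝ, (∀ j < n₁, OptK k R g p kap j (x j)) ∧
      ∑ j ∈ range n₁, x j = PHI k g p R 0 - PHI k g p R n₁ + c * (J.card : ℝ) := by
  classical
  refine ⟨fun j => PHI k g p R j - PHI k g p R (j + 1) + (if j ∈ J then c else 0), ?_, ?_⟩
  · intro j hj
    by_cases hjJ : j ∈ J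
    · simp only [hjJ, if_true]
      exact h1 j hjJ
    · simp only [hjJ, if_false]
      exact h0 j hj
  · rw [Finset.sum_add_distrib, Finset.sum_range_sub']
    congr 1
    rw [Finset.sum_ite_mem, Finset.inter_eq_right.mpr hJ, Finset.sum_const, nsmul_eq_mul]
    ring

/-- the data of the game below the level `m` -/
structure Gm (k m : ℕ) (R : ℕ → ℕ) (g p : ℕ → ℝ) (kap : ℝ) : Prop where
  hk : 3 ≤ k
  hkap : 0 < kap
  hkap2 : kap ≤ 1 / (8 * ((KN k : ℝ) + 4))
  hg : ∀ j, 0 ≤ g j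
  hp : ∀ j, 0 ≤ p j ∧ p j ≤ 1
  hR : ∀ j, R j ≤ k
  few : ∀ j < m, 1 ≤ R j → 1 - kap ≤ p j
  pg : ∀ j < m, p j ≤ g j + kap

theorem rw_few {k m : ℕ} {R : ℕ → ℕ} {g p : ℕ → ℝ} {kap : ℝ} (G : Gm k m R g p kap) {j : ℕ}
    (hj : j < m) (h : 1 ≤ R j) {c : ℝ} (hc : c ≤ 1 / 2) : RW k R g p kap c j :=
  rw_mono ((rewards k G.hk g p R kap G.hkap G.hkap2 G.hg G.hp G.hR j (G.few j hj)
    (G.pg j hj)).2.2.2 h) hc

theorem rw_one {k m : ℕ} {R : ℕ → ℕ} {g p : ℕ → ℝ} {kap : ℝ} (G : Gm k m R g p kap) {j : ℕ}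
    (hj : j < m) {c : ℝ} (hc : c ≤ 1 / 2) (hcp : c ≤ p j) : RW k R g p kap c j := by
  rcases Nat.eq_zero_or_pos (R j) with h | h
  · apply rw_mono ((rewards k G.hk g p R kap G.hkap G.hkap2 G.hg G.hp G.hR j (G.few j hj)
      (G.pg j hj)).1 h)
    have h3 : (3 : ℝ) ≤ k := by exact_mod_cast G.hk
    have := (G.hp j).1
    nlinarith
  · exact rw_few G hj h hc

/-- the local gain -/
theorem gain {k m : ℕ} {R : ℕ → ℕ} {g p : ℕ → ℝ} {kap : ℝ} (G : Gm k m R g p kap) (del θ : ℝ)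
    (hdel : 0 < del) (hdk : del * (8 * k) ≤ 1) (hkd : kap ≤ del / 8) (hθ0 : 0 < θ)
    (hθ : θ ≤ del / 4) (b : ℕ) (hb : b + 2 ≤ m) (h1 : θ ≤ g (b + 2))
    (h2 : g (b + 2) ≤ 1 - del ∨ g (b + 1) * (4 * k) ≤ 1) :
    RW k R g p kap θ (b + 1) ∨ RW k R g p kap θ b := by
  have hk3 : (3 : ℝ) ≤ k := by exact_mod_cast G.hk
  have hdel1 : del ≤ 1 / 24 := by nlinarith
  have hθ2 : θ ≤ 1 / 2 := by linarith
  by_cases hp1 : θ ≤ p (b + 1)
  · exact Or.inl (rw_one G (by omega) hθ2 hp1)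
  rw [not_le] at hp1
  by_cases hg1 : g (b + 2) ≤ 1 - del
  · left
    apply rw_mono ((rewards k G.hk g p R kap G.hkap G.hkap2 G.hg G.hp G.hR (b + 1)
      (G.few _ (by omega)) (G.pg _ (by omega))).2.1 (by
        show g (b + 2) + 2 * p (b + 1) ≤ 1 - kap
        linarith))
    show θ ≤ ((k : ℝ) - 1) * min 1 (g (b + 2))
    rw [min_eq_right (by linarith)]
    nlinarith
  · rw [not_le] at hg1
    have h2' : g (b + 1) * (4 * k) ≤ 1 := by
      rcases h2 with h | h
      · linarith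
      · exact h
    right
    by_cases hp2 : (1 : ℝ) / 4 ≤ p b
    · exact rw_one G (by omega) hθ2 (by linarith)
    rw [not_le] at hp2
    have hgb := G.hg (b + 1)
    have hg12 : g (b + 1) ≤ 1 / 12 := by nlinarith
    apply rw_mono ((rewards k G.hk g p R kap G.hkap G.hkap2 G.hg G.hp G.hR b
      (G.few _ (by omega)) (G.pg _ (by omega))).2.2.1 (by linarith) (by nlinarith))
    have h4 : 1 - del ≤ min 1 (g (b + 2)) := le_min (by linarith) hg1.le
    have h5 : ((k : ℝ) - 2) * (1 - del) ≤ ((k : ℝ) - 2) * min 1 (g (b + 2)) :=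
      mul_le_mul_of_nonneg_left h4 (by linarith)
    nlinarith

theorem pf_GA : TK_GA := by
  classical
  intro k hk c₁ hc₁ hc₁'
  have hk3 : (3 : ℝ) ≤ k := by exact_mod_cast hk
  have hKN : (6 : ℝ) ≤ (KN k : ℝ) := by
    rw [KN_real]; nlinarith
  obtain ⟨del, hdel⟩ : ∃ del : ℝ, del = 1 / (8 * k * ((KN k : ℝ) + 4)) := ⟨_, rfl⟩
  have hdel0 : 0 < del := by rw [hdel]; positivity
  have hdelmul : del * (8 * k * ((KN k : ℝ) + 4)) = 1 := by
    rw [hdel]; field_simp
  have hdelk : del * (8 * k) ≤ 1 := by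
    have h1 : 0 < del * (8 * k) := by positivity
    nlinarith
  have hdelK : del * ((KN k : ℝ) + 4) ≤ 1 / 24 := by
    have h1 : 0 < del * ((KN k : ℝ) + 4) := by positivity
    nlinarith
  obtain ⟨c₃, hc₃⟩ : ∃ c₃ : ℝ, c₃ = c₁ * del / 4 := ⟨_, rfl⟩
  have hc₃0 : 0 < c₃ := by rw [hc₃]; positivity
  have hc₃del : c₃ ≤ del / 4 := by rw [hc₃]; nlinarith
  have hdel1 : del ≤ 1 / 24 := by nlinarith
  have hc₃c₁ : c₃ ≤ c₁ := by rw [hc₃]; nlinarith
  obtain ⟨e, he⟩ : ∃ e : ℝ, e = c₃ / (16 * (k : ℝ) ^ 3) := ⟨_, rfl⟩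
  have he0 : 0 < e := by rw [he]; positivity
  have hemul : e * (16 * (k : ℝ) ^ 3) = c₃ := by
    rw [he]; field_simp
  have hk27 : (27 : ℝ) ≤ (k : ℝ) ^ 3 := by
    have : (3 : ℝ) ^ 3 ≤ (k : ℝ) ^ 3 := pow_le_pow_left₀ (by norm_num) hk3 3
    linarith
  have hec : e ≤ c₃ := by nlinarith
  have hk4 : e * (4 * k) ≤ 1 := by
    have h1 : e ≤ del / 4 := by linarith
    nlinarith
  refine ⟨c₃ / 2, 8 * k + 14 + 2 * (k + 1) * (2 * (k : ℝ) ^ 3 + 1) / e, by positivity, ?_⟩
  intro D hD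
  refine ⟨del / 8, by positivity, ?_⟩
  intro m g p R hm hg hp hR hfew hpg hsum hl
  have hkap2 : del / 8 ≤ 1 / (8 * ((KN k : ℝ) + 4)) := by
    rw [le_div_iff₀ (by positivity)]
    nlinarith
  have hG : Gm k m R g p (del / 8) := ⟨hk, by positivity, hkap2, hg, hp, hR, hfew, hpg⟩
  have hp0 : ∀ j, 0 ≤ p j := fun j => (hp j).1
  have hbig : 0 ≤ 2 * ((k : ℝ) + 1) * (2 * (k : ℝ) ^ 3 + 1) / e := by positivity
  have hDk : 8 * (k : ℝ) + 14 ≤ D := by linarith
  have hmD : D - 4 ≤ m := by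
    refine hsum.trans ?_
    calc ∑ j ∈ range m, (1 - g j) ≤ ∑ j ∈ range m, (1 : ℝ) := by
          apply Finset.sum_le_sum
          intro j _
          linarith [hg j]
      _ = m := by simp
  have hmk : 8 * k + 10 ≤ m := by
    have : (8 * (k : ℝ) + 10) ≤ m := by linarith
    exact_mod_cast this
  have h0 : ∀ j < m, RW k R g p (del / 8) 0 j := by
    intro j hj
    exact rw_one hG hj (by norm_num) (hp0 j)
  -- the first gain
  have hG1 : c₃ ≤ PHI k g p R 0 ∨ ∃ j < k, RW k R g p (del / 8) c₃ j := by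
    obtain ⟨l, hlk, hcl⟩ := hl
    rcases Nat.lt_or_ge (l + 1) k with h | h
    · left
      have h1 := PHI_zero_ge k g p R hg hp0 l h
      have h2 : c₁ ≤ min 1 (g l) := le_min hc₁' hcl
      linarith
    · obtain ⟨b, rfl⟩ : ∃ b, k = b + 3 := ⟨k - 3, by omega⟩
      have hlb : l = b + 2 := by omega
      rw [hlb] at hcl
      by_cases hg2 : g (b + 1) * (4 * ((b + 3 : ℕ) : ℝ)) ≤ 1
      · right
        rcases gain hG del c₃ hdel0 hdelk le_rfl hc₃0 hc₃del b (by omega) (by linarith)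
          (Or.inr hg2) with h1 | h1
        · exact ⟨b + 1, by omega, h1⟩
        · exact ⟨b, by omega, h1⟩
      · left
        rw [not_le] at hg2
        have h1 := PHI_zero_ge (b + 3) g p R hg hp0 (b + 1) (by omega)
        have h2 : c₃ ≤ min 1 (g (b + 1)) := by
          apply le_min (by linarith)
          by_contra hcon
          rw [not_le] at hcon
          have h3 : g (b + 1) * (4 * ((b + 3 : ℕ) : ℝ)) ≤
              del / 4 * (4 * ((b + 3 : ℕ) : ℝ)) :=
            mul_le_mul_of_nonneg_right (by linarith) (by positivity)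
          nlinarith
        linarith
  by_cases hq : ∃ i, k ≤ i ∧ i + (k - 1) ≤ m ∧
      ∀ i', i ≤ i' → i' + 1 < i + k → g i' ≤ e ∧ p i' ≤ e
  · -- case A
    obtain ⟨i, hki, him, hqi⟩ := hq
    have hPHI : PHI k g p R i ≤ c₃ / 8 := by
      have h1 := PHI_le k g p R hg hp0 i e he0.le (fun i' h1 h2 =>
        ⟨(min_le_right _ _).trans (hqi i' h1 h2).1, (hqi i' h1 h2).2⟩)
      nlinarith
    have hPHI0 := PHI_nonneg k g p R hg hp0 0
    rcases hG1 with h1 | ⟨j, hj, h1⟩
    · obtain ⟨x, hx1, hx2⟩ := collect k R g p (del / 8) 0 i ∅ (Finset.empty_subset _)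
        (fun j hj => h0 j (by omega)) (fun j hj => absurd hj (Finset.notMem_empty j))
      refine ⟨i, x, him, hx1, ?_⟩
      rw [hx2, zero_mul]
      linarith
    · obtain ⟨x, hx1, hx2⟩ := collect k R g p (del / 8) c₃ i {j}
        (by
          intro a ha
          rw [Finset.mem_singleton] at ha
          rw [mem_range, ha]
          omega)
        (fun j hj => h0 j (by omega)) (fun a ha => by
          rw [Finset.mem_singleton] at ha
          rw [ha]
          exact h1)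
      refine ⟨i, x, him, hx1, ?_⟩
      rw [hx2, Finset.card_singleton]
      push_cast
      linarith
  · -- case B
    have hq' : ∀ i, k ≤ i → i + (k - 1) ≤ m →
        ∃ i', i ≤ i' ∧ i' + 1 < i + k ∧ ¬ (g i' ≤ e ∧ p i' ≤ e) := by
      intro i h1 h2
      by_contra hcon
      apply hq
      refine ⟨i, h1, h2, ?_⟩
      intro i' h3 h4
      by_contra h5
      exact hcon ⟨i', h3, h4, h5⟩
    obtain ⟨n₁, hn₁⟩ : ∃ n₁, n₁ = m - (k - 1) := ⟨_, rfl⟩
    set J := (range n₁).filter (fun j => RW k R g p (del / 8) e j) with hJ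
    -- every non-full level gives a gain nearby
    have hnear : ∀ l, k + 1 ≤ l → l + 2 * k ≤ m → g l ≤ 1 - del →
        ∃ j ∈ J, l ≤ j + 2 ∧ j + 2 ≤ l + k := by
      intro l h1 h2 h3
      have hin : ∀ j, j + 2 ≤ l + k → RW k R g p (del / 8) e j → j ∈ J := by
        intro j hj hr
        rw [hJ, Finset.mem_filter, mem_range]
        exact ⟨by omega, hr⟩
      by_cases hgl : e < g l
      · obtain ⟨b, rfl⟩ : ∃ b, l = b + 2 := ⟨l - 2, by omega⟩
        rcases gain hG del e hdel0 hdelk le_rfl he0 (by linarith) b (by omega) hgl.le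
          (Or.inl h3) with h4 | h4
        · exact ⟨b + 1, hin _ (by omega) h4, by omega, by omega⟩
        · exact ⟨b, hin _ (by omega) h4, by omega, by omega⟩
      · rw [not_lt] at hgl
        have hex := hq' l (by omega) (by omega)
        have hfind := Nat.find_spec hex
        set i := Nat.find hex with hi
        obtain ⟨hi1, hi2, hi3⟩ := hfind
        by_cases hpi : e ≤ p i
        · refine ⟨i, hin i (by omega) (rw_one hG (by omega) (by linarith) hpi), by omega,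
            by omega⟩
        · rw [not_le] at hpi
          have hgi : e < g i := by
            by_contra hcon
            rw [not_lt] at hcon
            exact hi3 ⟨hcon, hpi.le⟩
          have hil : l < i := by
            rcases Nat.lt_or_ge l i with h | h
            · exact h
            · have : i = l := by omega
              rw [this] at hgi
              linarith
          have hprev : g (i - 1) ≤ e := by
            by_contra hcon
            have := Nat.find_min hex (m := i - 1) (by omega)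
            apply this
            exact ⟨by omega, by omega, fun h => hcon h.1⟩
          obtain ⟨b, hb⟩ : ∃ b, i = b + 2 := ⟨i - 2, by omega⟩
          rw [hb] at hgi hprev hi2 hil
          have hprev' : g (b + 1) ≤ e := hprev
          have hgb : g (b + 1) * (4 * k) ≤ 1 := by
            have h5 : g (b + 1) * (4 * k) ≤ e * (4 * k) :=
              mul_le_mul_of_nonneg_right hprev' (by positivity)
            linarith
          rcases gain hG del e hdel0 hdelk le_rfl he0 (by linarith) b (by omega) hgi.le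
            (Or.inr hgb) with h4 | h4
          · exact ⟨b + 1, hin _ (by omega) h4, by omega, by omega⟩
          · exact ⟨b, hin _ (by omega) h4, by omega, by omega⟩
    -- counting
    set N := (range m).filter (fun l => g l ≤ 1 - del) with hN
    set N' := (range m).filter (fun l => g l ≤ 1 - del ∧ k + 1 ≤ l ∧ l + 2 * k ≤ m) with hN'
    have hc1 : D - 4 ≤ (N.card : ℝ) + del * m := by
      refine hsum.trans ?_
      calc ∑ j ∈ range m, (1 - g j)
          ≤ ∑ j ∈ range m, ((if g j ≤ 1 - del then (1 : ℝ) else 0) + del) := by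
            apply Finset.sum_le_sum
            intro j _
            split_ifs with h
            · linarith [hg j]
            · rw [not_le] at h
              linarith
        _ = (N.card : ℝ) + del * m := by
            rw [Finset.sum_add_distrib, Finset.sum_const, Finset.card_range, nsmul_eq_mul,
              Finset.sum_boole, hN]
            ring
    have hc2 : N.card ≤ N'.card + (k + 1) + 2 * k := by
      have hsub : N ⊆ (N' ∪ range (k + 1)) ∪ Ico (m + 1 - 2 * k) (m + 1) := by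
        intro l hl'
        rw [hN, Finset.mem_filter, mem_range] at hl'
        rw [Finset.mem_union, Finset.mem_union, hN', Finset.mem_filter, mem_range, mem_range,
          Finset.mem_Ico]
        by_cases h1 : k + 1 ≤ l
        · by_cases h2 : l + 2 * k ≤ m
          · left; left
            exact ⟨hl'.1, hl'.2, h1, h2⟩
          · right
            omega
        · left; right
          omega
      have h1 := Finset.card_le_card hsub
      have h2 := Finset.card_union_le (N' ∪ range (k + 1)) (Ico (m + 1 - 2 * k) (m + 1))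
      have h3 := Finset.card_union_le N' (range (k + 1))
      rw [Finset.card_range] at h3
      rw [Nat.card_Ico] at h2
      omega
    have hc3 : N'.card ≤ J.card * (k + 1) := by
      have hsub : N' ⊆ J.biUnion (fun j => Icc (j + 2 - k) (j + 2)) := by
        intro l hl'
        rw [hN', Finset.mem_filter, mem_range] at hl'
        obtain ⟨j, hj, h1, h2⟩ := hnear l hl'.2.2.1 hl'.2.2.2 hl'.2.1
        rw [Finset.mem_biUnion]
        refine ⟨j, hj, ?_⟩
        rw [Finset.mem_Icc]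
        omega
      refine (Finset.card_le_card hsub).trans ?_
      refine Finset.card_biUnion_le_card_mul _ _ _ ?_
      intro j _
      rw [Nat.card_Icc]
      omega
    have hdm : del * m ≤ D / 24 := by
      have h1 : del * m ≤ del * (((KN k : ℝ) + 4) * D) := mul_le_mul_of_nonneg_left hm hdel0.le
      have hD0 : 0 ≤ D := by linarith
      have h2 : del * (((KN k : ℝ) + 4) * D) ≤ 1 / 24 * D := by
        rw [← mul_assoc]
        exact mul_le_mul_of_nonneg_right hdelK hD0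
      linarith
    have hc2' : (N.card : ℝ) ≤ (N'.card : ℝ) + (k + 1) + 2 * k := by exact_mod_cast hc2
    have hc3' : (N'.card : ℝ) ≤ (J.card : ℝ) * (k + 1) := by exact_mod_cast hc3
    have hc4 : D / 2 ≤ (J.card : ℝ) * (k + 1) := by linarith
    have hc5 : 2 * (k : ℝ) ^ 3 + 1 ≤ e * (J.card : ℝ) := by
      have h1 : 2 * ((k : ℝ) + 1) * (2 * (k : ℝ) ^ 3 + 1) / e ≤ D := by linarith
      rw [div_le_iff₀ he0] at h1
      have h2 : D * e ≤ 2 * ((J.card : ℝ) * (k + 1)) * e :=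
        mul_le_mul_of_nonneg_right (by linarith) he0.le
      have h3 : ((k : ℝ) + 1) * (2 * (k : ℝ) ^ 3 + 1) ≤ ((k : ℝ) + 1) * (e * (J.card : ℝ)) := by
        nlinarith
      exact le_of_mul_le_mul_left h3 (by positivity)
    obtain ⟨x, hx1, hx2⟩ := collect k R g p (del / 8) e n₁ J (Finset.filter_subset _ _)
      (fun j hj => h0 j (by omega)) (fun j hj => (Finset.mem_filter.mp hj).2)
    refine ⟨n₁, x, by omega, hx1, ?_⟩
    rw [hx2]
    have hPHI := PHI_le k g p R hg hp0 n₁ 1 zero_le_one (fun i' _ _ =>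
      ⟨min_le_left _ _, (hp i').2⟩)
    have hPHI0 := PHI_nonneg k g p R hg hp0 0
    linarith

end Pool.Agent.H31.CLK
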