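import Pool.Agent.H24.CL.TargetsK

/-!
# Counting the points with common recorded paths, digit by digit: row IN (helper31)
-/

set_option autoImplicit false

open Finset MeasureTheory

namespace Pool.Agent.H31.CLK

open Pool.Agent.H24.CL

theorem card_fib {α β : Type*} [DecidableEq β] (S : Finset α) (f : α → β) (N M : ℝ)
    (hM : 0 ≤ M) (h1 : ((S.image f).card : ℝ) ≤ N)
    (h2 : ∀ b, ((S.filter fun a => f a = b).card : ℝ) ≤ M) : (S.card : ℝ) ≤ N * M := by
  have e1 : S.card = ∑ b ∈ S.image f, (S.filter fun a => f a = b).card :=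
    Finset.card_eq_sum_card_image f S
  rw [e1]
  push_cast
  calc ∑ b ∈ S.image f, ((S.filter fun a => f a = b).card : ℝ)
      ≤ ∑ b ∈ S.image f, M := Finset.sum_le_sum fun b _ => h2 b
    _ = ((S.image f).card : ℝ) * M := by rw [Finset.sum_const, nsmul_eq_mul]
    _ ≤ N * M := mul_le_mul_of_nonneg_right h1 hM

section

variable {k q r b₁ : ℕ} {W : ℕ → Set (X k)} {R : ℕ → ℕ} {n G : ℕ → ℝ} {B : ℝ}
  {Y : Finset (X k)} {hd : ℕ → ℕ} {p : ℕ → X k → List ℕ} {s : ℕ → X k → X k}

theorem sum_in {j : ℕ} {a b c d : X k} (h1 : a - c ∈ H k q j) (h2 : b ∈ H k q j)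
    (h3 : d ∈ H k q j) : (a + b) - (c + d) ∈ H k q j := by
  have e : (a + b) - (c + d) = (a - c) + (b - d) := by abel
  rw [e]
  exact AddSubgroup.add_mem _ h1 (AddSubgroup.sub_mem _ h2 h3)

/-- one position of the new path -/
theorem pos_bound (hHM : TK_HM) (hq : q.Prime) (hL : Lev k q W R n G B) (hr : 1 ≤ r)
    (hP : Paths k q r b₁ W R Y hd p s) (j : ℕ) (hrj : r ≤ j) (hjk : j + 1 ≤ k)
    (S : Finset (X k)) (hS : S ⊆ Y) (hSd : ∀ y ∈ S, ∀ y' ∈ S, y - y' ∈ H k q (j + 1))
    (t : ℕ) (ht : t < j)
    (htk : ∀ y ∈ S, ∀ y' ∈ S, (p (j + 1) y).take t = (p (j + 1) y').take t) :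
    ((S.image fun y => (p (j + 1) y).getD t 0).card : ℝ) ≤ B := by
  classical
  obtain ⟨hmono, hCh, hCh0, hChL, happ⟩ := hHM k q hq.one_le
  rcases S.eq_empty_or_nonempty with rfl | ⟨y₀, hy₀⟩
  · simp only [Finset.image_empty, Finset.card_empty, Nat.cast_zero]
    linarith [hL.hB]
  have hlen : ∀ y ∈ S, (p (j + 1) y).length = j := fun y hy =>
    (hP.len (j + 1) (by omega) hjk y (hS hy)).trans (by omega)
  have hget : ∀ y ∈ S, (p (j + 1) y)[t]? = some ((p (j + 1) y).getD t 0) := by
    intro y hy
    have h1 : t < (p (j + 1) y).length := by rw [hlen y hy]; exact ht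
    rw [List.getD_eq_getElem?_getD, List.getElem?_eq_getElem h1]
    simp
  -- the case of a common position
  have hcommon : (∀ y ∈ S, ∀ y' ∈ S, (p (j + 1) y)[t]? = (p (j + 1) y')[t]?) →
      ((S.image fun y => (p (j + 1) y).getD t 0).card : ℝ) ≤ B := by
    intro h
    have h1 : (S.image fun y => (p (j + 1) y).getD t 0) ⊆ {(p (j + 1) y₀).getD t 0} := by
      intro b hb
      rw [Finset.mem_image] at hb
      obtain ⟨y, hy, rfl⟩ := hb
      rw [Finset.mem_singleton]
      have h2 := h y hy y₀ hy₀
      rw [hget y hy, hget y₀ hy₀] at h2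
      exact Option.some.inj h2
    have h2 := Finset.card_le_card h1
    rw [Finset.card_singleton] at h2
    have h3 : ((S.image fun y => (p (j + 1) y).getD t 0).card : ℝ) ≤ 1 := by exact_mod_cast h2
    linarith [hL.hB]
  rcases Nat.eq_zero_or_pos t with rfl | ht0
  · apply hcommon
    intro y hy y' hy'
    have h1 := hP.head (j + 1) (by omega) hjk y (hS hy)
    have h2 := hP.head (j + 1) (by omega) hjk y' (hS hy')
    rw [List.head?_eq_getElem?] at h1 h2
    rw [h1, h2]
  · by_cases hrec : max 1 (R t) + t < j + 1
    · apply hcommon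
      intro y hy y' hy'
      exact hP.same (j + 1) (by omega) hjk y (hS hy) y' (hS hy') t ht0 (by omega) hrec
    · have hR : 2 ≤ R t := by
        rcases le_total 1 (R t) with h | h
        · rw [max_eq_right h] at hrec; omega
        · rw [max_eq_left h] at hrec; omega
      have hRt : j + 1 ≤ R t + t := by
        rw [max_eq_right (by omega)] at hrec; omega
      have hpass := hL.pass t ht0 (by omega) (by omega)
      have hmem : ∀ y ∈ S, ∀ t', 1 ≤ t' → t' + 1 ≤ j + 1 →
          Ch q ((p (j + 1) y).take t') (y + s (j + 1) y) ∈ W t' := fun y hy =>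
        hP.mem (j + 1) (by omega) hjk y (hS hy)
      have hz₀ := hmem y₀ hy₀ t ht0 (by omega)
      refine hpass _ hz₀ _ ?_ ?_
      · intro b hb
        rw [Finset.mem_image] at hb
        obtain ⟨y, hy, rfl⟩ := hb
        rw [mem_range]
        apply hP.dig (j + 1) (by omega) hjk y (hS hy)
        exact List.mem_of_getElem? (hget y hy)
      · intro b hb
        rw [Finset.mem_image] at hb
        obtain ⟨y, hy, rfl⟩ := hb
        refine ⟨Ch q ((p (j + 1) y).take t) (y + s (j + 1) y) -
          Ch q ((p (j + 1) y₀).take t) (y₀ + s (j + 1) y₀), ?_, ?_⟩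
        · rw [htk y hy y₀ hy₀, ← map_sub]
          apply hmono (j + 1 - t) (R t) _ (by omega)
          apply hCh
          have hlt : ((p (j + 1) y₀).take t).length = t := by
            rw [List.length_take, hlen y₀ hy₀]; omega
          rw [hlt, Nat.sub_add_cancel (by omega)]
          apply sum_in (hSd y hy y₀ hy₀)
          · exact hmono r (j + 1) _ (by omega) (hP.sh (j + 1) (by omega) hjk y (hS hy))
          · exact hmono r (j + 1) _ (by omega) (hP.sh (j + 1) (by omega) hjk y₀ (hS hy₀))
        · have e1 : Ch q ((p (j + 1) y₀).take t) (y₀ + s (j + 1) y₀) +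
              (Ch q ((p (j + 1) y).take t) (y + s (j + 1) y) -
              Ch q ((p (j + 1) y₀).take t) (y₀ + s (j + 1) y₀)) =
              Ch q ((p (j + 1) y).take t) (y + s (j + 1) y) := by abel
          rw [e1]
          have e2 : phi q ((p (j + 1) y).getD t 0)
              (Ch q ((p (j + 1) y).take t) (y + s (j + 1) y)) =
              Ch q [(p (j + 1) y).getD t 0] (Ch q ((p (j + 1) y).take t) (y + s (j + 1) y)) := rfl
          rw [e2, ← happ]
          have e3 : (p (j + 1) y).take t ++ [(p (j + 1) y).getD t 0] =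
              (p (j + 1) y).take (t + 1) := by
            rw [List.take_add_one, hget y hy]
            rfl
          rw [e3]
          exact hmem y hy (t + 1) (by omega) (by omega)

/-- equal values force a smaller difference -/
theorem vanish (hHM : TK_HM) (hVL : TK_VL) (hq : q.Prime) (hkq : k < q) (hr : 1 ≤ r)
    (hb : b₁ < q) (hP : Paths k q r b₁ W R Y hd p s)
    (hY : ∀ y ∈ Y, ∀ y' ∈ Y, y - y' ∈ H k q k ∧ ∃ h ∈ H k q r, phi q b₁ (y - y' - h) = 0)
    (j : ℕ) (hrj : r ≤ j) (hjk : j + 1 ≤ k) (y y' : X k) (hy : y ∈ Y) (hy' : y' ∈ Y)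
    (hd1 : y - y' ∈ H k q (j + 1)) (hpe : ∀ e, j < e → e ≤ k → p e y = p e y')
    (hv : ∀ e, j < e → e ≤ k → Ch q ((p e y).take j) y = Ch q ((p e y').take j) y') :
    y - y' ∈ H k q j := by
  classical
  obtain ⟨_, h, hh, hbh⟩ := hY y hy y' hy'
  have key := hVL k q hq hkq r (j + 1) b₁ (y - y') h ((Ioc j k).image hd) hr (by omega) hjk hb
    hd1 hh hbh ?_ ?_
  · simpa using key
  · intro b hb'
    rw [Finset.mem_image] at hb'
    obtain ⟨e, he, rfl⟩ := hb'
    rw [Finset.mem_Ioc] at he
    have hhead := hP.head e (by omega) he.2 y hy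
    have hlen := hP.len e (by omega) he.2 y hy
    have hdig := hP.dig e (by omega) he.2 y hy
    have hne := hP.ne e (by omega) he.2
    obtain ⟨a, l, hal⟩ : ∃ a l, p e y = a :: l := by
      rcases hp : p e y with _ | ⟨a, l⟩
      · rw [hp] at hlen
        simp only [List.length_nil] at hlen
        omega
      · exact ⟨a, l, rfl⟩
    rw [hal] at hhead hlen hdig
    simp only [List.head?_cons, Option.some.injEq] at hhead
    simp only [List.length_cons] at hlen
    refine ⟨?_, hne, l.take (j - 1), ?_, ?_⟩
    · rw [← hhead]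
      exact hdig a (by simp)
    · rw [List.length_take]
      omega
    · rw [← hhead]
      have e1 : a :: l.take (j - 1) = (p e y).take j := by
        rw [hal]
        obtain ⟨j', rfl⟩ : ∃ j', j = j' + 1 := ⟨j - 1, by omega⟩
        rw [List.take_succ_cons]
        rfl
      rw [e1, map_sub]
      have h1 := hv e he.1 he.2
      have h2 := hpe e he.1 he.2
      rw [h1, h2, sub_self]
  · rw [Finset.card_image_of_injOn]
    · rw [Nat.card_Ioc]
      omega
    · intro e he e' he' hee
      rw [Finset.coe_Ioc, Set.mem_Ioc] at he he'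
      exact hP.inj e e' (by omega) he.2 (by omega) he'.2 hee

/-- the claim -/
theorem claim (hHM : TK_HM) (hVL : TK_VL) (hq : q.Prime) (hkq : k < q) (hL : Lev k q W R n G B)
    (hr : 1 ≤ r) (hb : b₁ < q) (hP : Paths k q r b₁ W R Y hd p s)
    (hY : ∀ y ∈ Y, ∀ y' ∈ Y, y - y' ∈ H k q k ∧ ∃ h ∈ H k q r, phi q b₁ (y - y' - h) = 0)
    (hY2 : ∀ y ∈ Y, ∀ y' ∈ Y, y - y' ∈ H k q r → y = y') :
    ∀ i : ℕ, r + i ≤ k → ∀ S : Finset (X k), S ⊆ Y →
      (∀ y ∈ S, ∀ y' ∈ S, y - y' ∈ H k q (r + i)) →
      (∀ e, r + i < e → e ≤ k → ∀ y ∈ S, ∀ y' ∈ S, p e y = p e y') →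
      (S.card : ℝ) ≤ (B ^ k) ^ i * ∏ l ∈ Ico r (r + i), G l ^ (k - l) := by
  classical
  obtain ⟨hmono, hCh, hCh0, hChL, happ⟩ := hHM k q hq.one_le
  have hB0 : 0 ≤ B := by linarith [hL.hB]
  have hG0 : ∀ l, 1 ≤ l → l + 1 ≤ k → 0 ≤ G l := fun l h1 h2 => by linarith [hL.hG l h1 h2]
  intro i
  induction i with
  | zero =>
    intro _ S hS hSd _
    simp only [add_zero, pow_zero, Ico_self, prod_empty, mul_one]
    have : S.card ≤ 1 := by
      rw [Finset.card_le_one]
      intro a ha b hb'
      exact hY2 a (hS ha) b (hS hb') (hSd a ha b hb')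
    exact_mod_cast this
  | succ i ih =>
    intro hik S hS hSd hSp
    set j := r + i with hj
    have ihj := ih (by omega)
    set M := (B ^ k) ^ i * ∏ l ∈ Ico r j, G l ^ (k - l) with hM
    have hM0 : 0 ≤ M := by
      apply mul_nonneg (pow_nonneg (pow_nonneg hB0 _) _)
      apply Finset.prod_nonneg
      intro l hl
      rw [Finset.mem_Ico] at hl
      exact pow_nonneg (hG0 l (by omega) (by omega)) _
    have hj1 : 1 ≤ j := by omega
    have hjk : j + 1 ≤ k := by omega
    have hGj0 : 0 ≤ G j := hG0 j hj1 hjk
    -- (b), (c): all paths constant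
    have hQ : ∀ u : ℕ, j + u ≤ k → ∀ T : Finset (X k), T ⊆ Y →
        (∀ y ∈ T, ∀ y' ∈ T, y - y' ∈ H k q (j + 1)) →
        (∀ e, j < e → e ≤ k → ∀ y ∈ T, ∀ y' ∈ T, p e y = p e y') →
        (∀ e, j + u < e → e ≤ k → ∀ y ∈ T, ∀ y' ∈ T,
          Ch q ((p e y).take j) y = Ch q ((p e y').take j) y') →
        (T.card : ℝ) ≤ G j ^ u * M := by
      intro u
      induction u with
      | zero =>
        intro _ T hT hTd hTp hTv
        rw [pow_zero, one_mul]
        apply ihj T hT
        · intro y hy y' hy'
          exact vanish hHM hVL hq hkq hr hb hP hY j (by omega) hjk y y' (hT hy) (hT hy')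
            (hTd y hy y' hy') (fun e h1 h2 => hTp e h1 h2 y hy y' hy')
            (fun e h1 h2 => hTv e (by omega) h2 y hy y' hy')
        · intro e h1 h2
          exact hTp e h1 h2
      | succ u ihu =>
        intro huk T hT hTd hTp hTv
        have e0 : j + (u + 1) ≤ k := huk
        set e := j + (u + 1) with he
        have hfib := card_fib T (fun y => Ch q ((p e y).take j) y) (G j) (G j ^ u * M)
          (mul_nonneg (pow_nonneg hGj0 _) hM0) ?_ ?_
        · rw [pow_succ]
          calc (T.card : ℝ) ≤ G j * (G j ^ u * M) := hfib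
            _ = G j ^ u * G j * M := by ring
        · -- the number of the values
          apply hL.cnt j hj1 hjk
          · intro v hv
            rw [Finset.mem_image] at hv
            obtain ⟨y, hy, rfl⟩ := hv
            have h1 := hP.mem e (by omega) e0 y (hT hy) j hj1 (by omega)
            have hlen : ((p e y).take j).length = j := by
              rw [List.length_take, hP.len e (by omega) e0 y (hT hy)]; omega
            have h2 : Ch q ((p e y).take j) (s e y) = 0 := by
              apply hCh0
              rw [hlen]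
              exact hmono r j _ (by omega) (hP.sh e (by omega) e0 y (hT hy))
            rw [map_add, h2, add_zero] at h1
            exact h1
          · intro v hv v' hv'
            rw [Finset.mem_image] at hv hv'
            obtain ⟨y, hy, rfl⟩ := hv
            obtain ⟨y', hy', rfl⟩ := hv'
            have hlen : ((p e y).take j).length = j := by
              rw [List.length_take, hP.len e (by omega) e0 y (hT hy)]; omega
            show Ch q ((p e y).take j) y - Ch q ((p e y').take j) y' ∈ Ln k q
            rw [← hTp e (by omega) e0 y hy y' hy', ← map_sub]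
            apply hChL
            · rw [hlen]; exact hj1
            · rw [hlen]
              exact hTd y hy y' hy'
        · intro v
          apply ihu (by omega)
          · exact (Finset.filter_subset _ _).trans hT
          · intro y hy y' hy'
            exact hTd y (Finset.mem_filter.mp hy).1 y' (Finset.mem_filter.mp hy').1
          · intro e' h1 h2 y hy y' hy'
            exact hTp e' h1 h2 y (Finset.mem_filter.mp hy).1 y' (Finset.mem_filter.mp hy').1
          · intro e' h1 h2 y hy y' hy'
            rcases Nat.lt_or_ge e e' with h | h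
            · exact hTv e' h h2 y (Finset.mem_filter.mp hy).1 y' (Finset.mem_filter.mp hy').1
            · have he' : e' = e := by omega
              rw [he', (Finset.mem_filter.mp hy).2, (Finset.mem_filter.mp hy').2]
    have hfull : ∀ T : Finset (X k), T ⊆ Y →
        (∀ y ∈ T, ∀ y' ∈ T, y - y' ∈ H k q (j + 1)) →
        (∀ e, j < e → e ≤ k → ∀ y ∈ T, ∀ y' ∈ T, p e y = p e y') →
        (T.card : ℝ) ≤ G j ^ (k - j) * M := by
      intro T hT hTd hTp
      apply hQ (k - j) (by omega) T hT hTd hTp
      intro e h1 h2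
      omega
    -- (a): the positions of the new path
    have hsplit : ∀ v : ℕ, v ≤ j → ∀ T : Finset (X k), T ⊆ Y →
        (∀ y ∈ T, ∀ y' ∈ T, y - y' ∈ H k q (j + 1)) →
        (∀ e, j + 1 < e → e ≤ k → ∀ y ∈ T, ∀ y' ∈ T, p e y = p e y') →
        (∀ y ∈ T, ∀ y' ∈ T, (p (j + 1) y).take (j - v) = (p (j + 1) y').take (j - v)) →
        (T.card : ℝ) ≤ B ^ v * (G j ^ (k - j) * M) := by
      intro v
      induction v with
      | zero =>
        intro _ T hT hTd hTp hTt
        rw [pow_zero, one_mul]
        apply hfull T hT hTd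
        intro e h1 h2 y hy y' hy'
        rcases Nat.lt_or_ge (j + 1) e with h | h
        · exact hTp e h h2 y hy y' hy'
        · have he : e = j + 1 := by omega
          have h3 := hTt y hy y' hy'
          rw [Nat.sub_zero] at h3
          have l1 : (p (j + 1) y).length = j :=
            (hP.len (j + 1) (by omega) hjk y (hT hy)).trans (by omega)
          have l2 : (p (j + 1) y').length = j :=
            (hP.len (j + 1) (by omega) hjk y' (hT hy')).trans (by omega)
          rw [List.take_of_length_le (by omega), List.take_of_length_le (by omega)] at h3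
          rw [he, h3]
      | succ v ihv =>
        intro hvj T hT hTd hTp hTt
        have hfib := card_fib T (fun y => (p (j + 1) y).getD (j - (v + 1)) 0) B
          (B ^ v * (G j ^ (k - j) * M))
          (mul_nonneg (pow_nonneg hB0 _) (mul_nonneg (pow_nonneg hGj0 _) hM0)) ?_ ?_
        · rw [pow_succ]
          calc (T.card : ℝ) ≤ B * (B ^ v * (G j ^ (k - j) * M)) := hfib
            _ = B ^ v * B * (G j ^ (k - j) * M) := by ring
        · exact pos_bound hHM hq hL hr hP j (by omega) hjk T hT hTd (j - (v + 1)) (by omega) hTt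
        · intro b
          apply ihv (by omega)
          · exact (Finset.filter_subset _ _).trans hT
          · intro y hy y' hy'
            exact hTd y (Finset.mem_filter.mp hy).1 y' (Finset.mem_filter.mp hy').1
          · intro e' h1 h2 y hy y' hy'
            exact hTp e' h1 h2 y (Finset.mem_filter.mp hy).1 y' (Finset.mem_filter.mp hy').1
          · intro y hy y' hy'
            have hyT := (Finset.mem_filter.mp hy).1
            have hyT' := (Finset.mem_filter.mp hy').1
            have e1 : j - v = (j - (v + 1)) + 1 := by omega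
            have l1 : (p (j + 1) y).length = j :=
              (hP.len (j + 1) (by omega) hjk y (hT hyT)).trans (by omega)
            have l2 : (p (j + 1) y').length = j :=
              (hP.len (j + 1) (by omega) hjk y' (hT hyT')).trans (by omega)
            have g1 : (p (j + 1) y)[j - (v + 1)]? = some b := by
              have h1 : j - (v + 1) < (p (j + 1) y).length := by omega
              rw [← (Finset.mem_filter.mp hy).2, List.getD_eq_getElem?_getD,
                List.getElem?_eq_getElem h1]
              simp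
            have g2 : (p (j + 1) y')[j - (v + 1)]? = some b := by
              have h1 : j - (v + 1) < (p (j + 1) y').length := by omega
              rw [← (Finset.mem_filter.mp hy').2, List.getD_eq_getElem?_getD,
                List.getElem?_eq_getElem h1]
              simp
            rw [e1, List.take_add_one, List.take_add_one, g1, g2, hTt y hyT y' hyT']
    have hlast := hsplit j le_rfl S hS hSd hSp (by
      intro y hy y' hy'
      rw [Nat.sub_self, List.take_zero, List.take_zero])
    calc (S.card : ℝ) ≤ B ^ j * (G j ^ (k - j) * M) := hlast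
      _ ≤ B ^ k * (G j ^ (k - j) * M) := by
          apply mul_le_mul_of_nonneg_right _ (mul_nonneg (pow_nonneg hGj0 _) hM0)
          exact pow_le_pow_right₀ hL.hB (by omega)
      _ = (B ^ k) ^ (i + 1) * ∏ l ∈ Ico r (r + (i + 1)), G l ^ (k - l) := by
          have e1 : r + (i + 1) = j + 1 := by omega
          rw [e1, Finset.prod_Ico_succ_top (by omega : r ≤ j), hM, pow_succ]
          ring

end

theorem pf_IN (hHM : TK_HM) (hVL : TK_VL) : TK_IN := by
  intro k hk
  refine ⟨k * k, ?_⟩
  intro q W R n G B hq hkq hL r b₁ Y hd p s hr hrk hb hP hY hY2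
  have h := claim hHM hVL hq hkq hL hr hb hP hY hY2 (k - r) (by omega) Y (Finset.Subset.refl _)
    (by
      intro y hy y' hy'
      rw [Nat.add_sub_cancel' hrk]
      exact (hY y hy y' hy').1)
    (by
      intro e h1 h2
      omega)
  rw [Nat.add_sub_cancel' hrk] at h
  have hI : Icc r (k - 1) = Ico r k := by
    ext l
    rw [Finset.mem_Icc, Finset.mem_Ico]
    omega
  rw [hI]
  refine h.trans ?_
  apply mul_le_mul_of_nonneg_right
  · rw [← pow_mul]
    exact pow_le_pow_right₀ hL.hB (Nat.mul_le_mul_left k (Nat.sub_le k r))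
  · apply Finset.prod_nonneg
    intro l hl
    rw [Finset.mem_Ico] at hl
    exact pow_nonneg (by linarith [hL.hG l (by omega) (by omega)]) _

end Pool.Agent.H31.CLK
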